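import Pool.Agent.Helper34.FB.Goals

/-!
# Project FB (MP_05c055_al), packet GEN: minimal generators adapted to given elements
-/

set_option autoImplicit false

namespace Pool.Agent.Helper5.FB

open IsLocalRing Pool.Agent.Helper26.DA Pool.Agent.Helper34.FB

universe u

/-- lifts of a basis of the cotangent space are minimal generators -/
theorem minGen_of_basis {A : Type u} [CommRing A] [IsLocalRing A] [IsNoetherianRing A] {e0 : ℕ}
    (b : Module.Basis (Fin e0) (ResidueField A) (CotangentSpace A)) (a : Fin e0 → maximalIdeal A)
    (ha : ∀ l, (maximalIdeal A).toCotangent (a l) = b l) : MinGen fun l => (a l : A) := by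
  refine ⟨?_, ?_⟩
  · have h1 : Submodule.span (ResidueField A)
        ((maximalIdeal A).toCotangent '' (Set.range a)) = ⊤ := by
      rw [← Set.range_comp]
      have h2 : (⇑(maximalIdeal A).toCotangent ∘ a) = b := funext fun l => ha l
      rw [h2, b.span_eq]
    have h3 := CotangentSpace.span_image_eq_top_iff.mp h1
    have h4 : Submodule.map (Submodule.subtype (maximalIdeal A)) (Submodule.span A (Set.range a)) =
        maximalIdeal A := by
      rw [h3, Submodule.map_top, Submodule.range_subtype]
    rw [Submodule.map_span, ← Set.range_comp] at h4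
    exact h4
  · intro w hw l
    have h1 : ∑ l, w l • a l = 0 := by
      apply Subtype.ext
      simp only [AddSubmonoidClass.coe_finsetSum, SetLike.val_smul, smul_eq_mul, ZeroMemClass.coe_zero]
      rw [← hw]
      exact Finset.sum_congr rfl fun l _ => mul_comm _ _
    have h2 : ∑ l, (residue A (w l)) • b l = 0 := by
      have h3 := congrArg (maximalIdeal A).toCotangent h1
      rw [map_sum, map_zero] at h3
      rw [← h3]
      refine Finset.sum_congr rfl fun l _ => ?_
      rw [LinearMap.map_smul, ha l]
      exact algebraMap_smul (ResidueField A) (w l) (b l)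
    have h4 := Fintype.linearIndependent_iff.mp b.linearIndependent _ h2 l
    exact (residue_eq_zero_iff _).mp h4

/-- elements of `m ^ 2` are combinations of the generators with coefficients in `m` -/
theorem exists_coeff_of_mem_sq {A : Type u} [CommRing A] [IsLocalRing A] {e0 : ℕ} (a : Fin e0 → A)
    (ha : Ideal.span (Set.range a) = maximalIdeal A) (x : A) (hx : x ∈ maximalIdeal A ^ 2) :
    ∃ d : Fin e0 → A, (∀ l, d l ∈ maximalIdeal A) ∧ x = ∑ l, d l * a l := by
  rw [pow_two] at hx
  have key : maximalIdeal A * Ideal.span (Set.range a) = maximalIdeal A * maximalIdeal A := by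
    rw [ha]
  rw [← key] at hx
  refine Submodule.mul_induction_on hx ?_ ?_
  · intro r hr y hy
    obtain ⟨c, hc⟩ := (Ideal.mem_span_range_iff_exists_fun).mp hy
    refine ⟨fun l => r * c l, fun l => Ideal.mul_mem_right _ _ hr, ?_⟩
    rw [← hc, Finset.mul_sum]
    exact Finset.sum_congr rfl fun l _ => by ring
  · rintro y z ⟨d, hd, rfl⟩ ⟨d', hd', rfl⟩
    refine ⟨fun l => d l + d' l, fun l => Ideal.add_mem _ (hd l) (hd' l), ?_⟩
    rw [← Finset.sum_add_distrib]
    exact Finset.sum_congr rfl fun l _ => by ring

theorem gGEN : G_GEN.{u} := by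
  intro A _ _ _ s0 N0 b hb hdim
  set v : Fin s0 → CotangentSpace A := fun i => (maximalIdeal A).toCotangent ⟨b i, hb i⟩ with hv
  set U : Submodule (ResidueField A) (CotangentSpace A) :=
    Submodule.span (ResidueField A) (Set.range v) with hU
  have hUdim : Module.finrank (ResidueField A) U ≤ s0 := by
    have := finrank_range_le_card (R := ResidueField A) v
    simpa [Set.finrank, hU] using this
  obtain ⟨U', hU'⟩ := U.exists_isCompl
  have hsum : Module.finrank (ResidueField A) U + Module.finrank (ResidueField A) U' =
      Module.finrank (ResidueField A) (CotangentSpace A) := Submodule.finrank_add_eq_of_isCompl hU'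
  set nU := Module.finrank (ResidueField A) U with hnU
  set nU' := Module.finrank (ResidueField A) U' with hnU'
  let β0 : Module.Basis (Fin nU ⊕ Fin nU') (ResidueField A) (CotangentSpace A) :=
    ((Module.finBasis (ResidueField A) U).prod (Module.finBasis (ResidueField A) U')).map
      (Submodule.prodEquivOfIsCompl U U' hU')
  let β : Module.Basis (Fin (nU + nU')) (ResidueField A) (CotangentSpace A) :=
    β0.reindex finSumFinEquiv
  have hzero : ∀ x ∈ U, ∀ j : Fin nU', β.repr x (finSumFinEquiv (Sum.inr j)) = 0 := by
    intro x hx j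
    have h1 : (Submodule.prodEquivOfIsCompl U U' hU').symm x = (⟨x, hx⟩, 0) := by
      rw [LinearEquiv.symm_apply_eq]
      simp [Submodule.coe_prodEquivOfIsCompl']
    simp only [β, β0, Module.Basis.repr_reindex_apply, Equiv.symm_apply_apply, Module.Basis.map_repr,
      LinearEquiv.trans_apply, h1]
    simp
  choose a ha using fun l => Ideal.toCotangent_surjective (maximalIdeal A) (β l)
  have hmin := minGen_of_basis β a ha
  have hle : N0 ≤ nU' := by omega
  refine ⟨nU + nU', fun l => (a l : A), fun j => finSumFinEquiv (Sum.inr (Fin.castLE hle j)), hmin,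
    ?_, ?_⟩
  · intro j j' h
    have := Sum.inr_injective (finSumFinEquiv.injective h)
    exact Fin.castLE_injective hle this
  · intro i
    choose c' hc' using fun l => IsLocalRing.residue_surjective (β.repr (v i) l)
    have h1 : (maximalIdeal A).toCotangent (⟨b i, hb i⟩ - ∑ l, c' l • a l) = 0 := by
      rw [map_sub, map_sum, sub_eq_zero]
      calc (maximalIdeal A).toCotangent ⟨b i, hb i⟩ = ∑ l, β.repr (v i) l • β l :=
            (β.sum_repr (v i)).symm
        _ = ∑ l, (maximalIdeal A).toCotangent (c' l • a l) := by
            refine Finset.sum_congr rfl fun l _ => ?_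
            rw [LinearMap.map_smul, ha l, ← hc' l]
            exact algebraMap_smul (ResidueField A) (c' l) (β l)
    rw [Ideal.toCotangent_eq_zero] at h1
    obtain ⟨d, hd, hde⟩ := exists_coeff_of_mem_sq (fun l => (a l : A)) hmin.1 _ h1
    refine ⟨fun l => c' l + d l, ?_, ?_⟩
    · have h2 : b i - ∑ l, c' l * (a l : A) = ∑ l, d l * (a l : A) := by
        rw [← hde]
        simp
      have h3 : b i = ∑ l, c' l * (a l : A) + ∑ l, d l * (a l : A) := by
        rw [← h2]; ring
      rw [h3, ← Finset.sum_add_distrib]
      exact Finset.sum_congr rfl fun l _ => by ring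
    · intro j
      refine Ideal.add_mem _ ?_ (hd _)
      rw [← residue_eq_zero_iff, hc']
      exact hzero (v i) (Submodule.subset_span ⟨i, rfl⟩) _

end Pool.Agent.Helper5.FB
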